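import Pool.Agent.H60.Besov.Final

/-!
# A compact set with vanishing `(n - αp)`-dimensional Hausdorff measure and positive Besov capacity

For all `n ≥ 1`, `0 < α < 1`, `1 ≤ q < p` with `αp < n` there is a compact `K` in `ℝⁿ` with
`H^{n-αp}(K) = 0` and `A_{α,p,q}(K) > 0`.

The set is a Cantor set on which each path makes, once in each stage, a run that concentrates the
mass strongly, at a time that depends on the path.
-/

namespace Pool.Agent.Results.MP_9e0505_an.HausdorffNullPosCap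

open MeasureTheory
open scoped ENNReal

/-- The Besov norm `|u|_{α,p,q}` of a function `u` on `ℝⁿ` for `0 < α < 1`:
`‖u‖_p + (∫ (‖u(· + h) - u‖_p / |h|^α)^q dh / |h|^n)^{1/q}`, with values in `[0, ∞]`. -/
noncomputable def besovNorm (n : ℕ) (α p q : ℝ) (u : EuclideanSpace ℝ (Fin n) → ℝ) : ℝ≥0∞ :=
  eLpNorm u (ENNReal.ofReal p) volume +
    (∫⁻ h : EuclideanSpace ℝ (Fin n),
      (eLpNorm (fun x => u (x + h) - u x) (ENNReal.ofReal p) volume /
        ENNReal.ofReal (‖h‖ ^ α)) ^ q / ENNReal.ofReal (‖h‖ ^ n)) ^ (1 / q)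

/-- The Besov capacity `A_{α,p,q}(K)` of a compact set `K`: the infimum of `|u|_{α,p,q}^p` over all
smooth compactly supported real functions `u` with `u ≥ 1` on `K`. -/
noncomputable def besovCapacity (n : ℕ) (α p q : ℝ) (K : Set (EuclideanSpace ℝ (Fin n))) :
    ℝ≥0∞ :=
  ⨅ (u : EuclideanSpace ℝ (Fin n) → ℝ) (_ : ContDiff ℝ ((⊤ : ℕ∞) : WithTop ℕ∞) u)
    (_ : HasCompactSupport u) (_ : ∀ x ∈ K, 1 ≤ u x), besovNorm n α p q u ^ p

/-- For all `n ≥ 1`, `0 < α < 1`, `1 ≤ q < p` with `αp < n` some compact set has vanishing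
`(n - αp)`-dimensional Hausdorff measure and positive Besov capacity `A_{α,p,q}`. -/
theorem result (n : ℕ) (hn : 1 ≤ n) (α p q : ℝ) (hα : 0 < α) (_hα1 : α < 1) (hq : 1 ≤ q)
    (hqp : q < p) (hαp : α * p < n) :
    ∃ K : Set (EuclideanSpace ℝ (Fin n)), IsCompact K ∧
      μH[(n : ℝ) - α * p] K = 0 ∧ 0 < besovCapacity n α p q K := by
  have hp : 1 < p := lt_of_le_of_lt hq hqp
  have hp0 : 0 < p := by linarith
  set d : ℝ := (n : ℝ) - α * p with hd
  have hd0 : 0 < d := by rw [hd]; linarith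
  have hnR : (1 : ℝ) ≤ n := by exact_mod_cast hn
  -- the number of free steps per frozen step
  obtain ⟨x, hx⟩ := exists_nat_gt (max 1 (d / (α * p)))
  have hx1 : (1 : ℝ) < x := lt_of_le_of_lt (le_max_left _ _) hx
  have hx2 : d / (α * p) < x := lt_of_le_of_lt (le_max_right _ _) hx
  have hxN : 1 ≤ x := by
    have : (1 : ℝ) ≤ x := hx1.le
    exact_mod_cast this
  set β : ℝ := (2 : ℝ) ^ (-((n : ℝ) * x / ((x + 1) * d))) with hβ
  have h0 : 0 < β := by rw [hβ]; positivity
  have h1 : β < 1 / 2 := by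
    have e : (1 / 2 : ℝ) = (2 : ℝ) ^ (-1 : ℝ) := by rw [Real.rpow_neg_one]; norm_num
    rw [hβ, e]
    apply Real.rpow_lt_rpow_of_exponent_lt (by norm_num)
    have hden : 0 < ((x : ℝ) + 1) * d := by positivity
    have : 1 < (n : ℝ) * x / ((x + 1) * d) := by
      rw [one_lt_div hden]
      have h3 : d < x * (α * p) := by rwa [div_lt_iff₀ (by positivity)] at hx2
      have h4 : α * p = n - d := by rw [hd]; ring
      rw [h4] at h3
      nlinarith
    linarith
  -- the auxiliary exponent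
  set q₁ : ℝ := (q + p) / 2 with hq₁
  have hq11 : 1 < q₁ := by rw [hq₁]; linarith
  have hqq : q ≤ q₁ := by rw [hq₁]; linarith
  have hq1p : q₁ < p := by rw [hq₁]; linarith
  have hr : 1 < (q₁ / (q₁ - 1)) / (p / (p - 1)) := by
    rw [one_lt_div (by apply div_pos <;> linarith), div_lt_div_iff₀ (by linarith) (by linarith)]
    nlinarith
  have hκ : 0 < (n : ℝ) / (x + 1) * (1 / (p - 1)) := by
    have : 0 < p - 1 := by linarith
    positivity
  obtain ⟨A, hA, hsum⟩ := H60.Besov.exists_A hn hxN hκ hr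
  obtain ⟨C, hC⟩ := H60.Besov.exists_bound_sum hxN hA hsum
  obtain ⟨CK, hCK, hbound⟩ := H60.Besov.key_bound (n := n) (x := x) (A := A) (β := β) hn hxN hA
    h0 h1 (α := α) (p := p) (q := q) (q₁ := q₁) hα hq hqq hq11 hp hd0 hβ hC
  refine ⟨Set.range (H60.Besov.pt n x A β), H60.Besov.isCompact_range_pt hxN hA h0 h1,
    H60.Besov.hausdorff_null hn hxN hA hd0 h0 h1 hβ, ?_⟩
  have hCK1 : CK + 1 ≠ ∞ := ENNReal.add_ne_top.2 ⟨hCK, ENNReal.one_ne_top⟩
  have hCK0 : CK + 1 ≠ 0 := by simp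
  have hpos : 0 < ((CK + 1)⁻¹) ^ p :=
    ENNReal.rpow_pos (ENNReal.inv_pos.2 hCK1) (ENNReal.inv_ne_top.2 hCK0)
  refine lt_of_lt_of_le hpos ?_
  unfold besovCapacity
  refine le_iInf fun u => le_iInf fun hu => le_iInf fun hc => le_iInf fun hK => ?_
  have h2 := hbound u hu.continuous hc hK
  have hnorm : besovNorm n α p q u = eLpNorm u (ENNReal.ofReal p) volume +
      (H60.Besov.semi α p q u) ^ (1 / q) := by
    unfold besovNorm H60.Besov.semi
    simp_rw [H60.Besov.om_eq hp0]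
  rw [← hnorm] at h2
  have h3 : 1 ≤ (CK + 1) * besovNorm n α p q u := by
    refine h2.trans ?_
    gcongr
    exact le_self_add
  apply ENNReal.rpow_le_rpow _ hp0.le
  exact (ENNReal.inv_le_iff_le_mul (fun _ => hCK0) (fun h => absurd h hCK1)).2 h3

end Pool.Agent.Results.MP_9e0505_an.HausdorffNullPosCap
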